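import Pool.Agent.W8.ST.Stm

/-! Project ST (owner helper8), part ST-OpD: tangential derivatives of solutions. -/

set_option autoImplicit false

open scoped ContDiff

namespace Pool.Agent.W589.ST.OpD

open Pool.Agent.W8.ST

theorem hd {n : ℕ} {f : V n → ℝ} (hf : ContDiff ℝ ∞ f) (x : V n) (i : Fin n) :
    HasDerivAt (fun t : ℝ => f (x + t • (Pi.single i (1 : ℝ) : V n))) (pd i f x) 0 := by
  have h1 : DifferentiableAt ℝ f x := (hf.differentiable (by simp)) x
  exact (h1.hasFDerivAt).hasLineDerivAt (Pi.single i (1 : ℝ) : V n)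

theorem line0 (x : V 4) (t : ℝ) (i : Fin 3) :
    (x + t • (Pi.single i.succ (1 : ℝ) : V 4)) 0 = x 0 := by
  rw [Pi.add_apply, Pi.smul_apply, Pi.single_eq_of_ne (Fin.succ_ne_zero i).symm, smul_zero,
    add_zero]

theorem line_strip {x : V 4} (hx : x ∈ strip 3) (t : ℝ) (i : Fin 3) :
    x + t • (Pi.single i.succ (1 : ℝ) : V 4) ∈ strip 3 := by
  show |(x + t • (Pi.single i.succ (1 : ℝ) : V 4)) 0| ≤ 1
  rw [line0]
  exact hx

theorem OpD_proof : OpD := by
  intro hC
  constructor
  · rintro lam sig u ⟨hu, hper, heq, hbd⟩ i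
    have hw : ContDiff ℝ ∞ (pd i.succ u) := (hC u hu).1 i.succ
    have hcomm2 : ∀ j : Fin 4, pd i.succ (pd j (pd j u)) = pd j (pd j (pd i.succ u)) := by
      intro j
      rw [(hC (pd j u) ((hC u hu).1 j)).2 i.succ j, (hC u hu).2 i.succ j]
    have hcomm1 : pd i.succ (pd 0 u) = pd 0 (pd i.succ u) := (hC u hu).2 i.succ 0
    have h2 : ∀ j : Fin 4, ContDiff ℝ ∞ (pd j (pd j u)) := fun j =>
      (hC (pd j u) ((hC u hu).1 j)).1 j
    refine ⟨hw, ?_, ?_, ?_⟩
    · intro x hx j
      have e1 := hd hu x i.succ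
      have e2 := hd hu (x + Pi.single j.succ (2 * Real.pi)) i.succ
      have e3 : (fun t : ℝ => u (x + Pi.single j.succ (2 * Real.pi) +
          t • (Pi.single i.succ (1 : ℝ) : V 4))) =
          fun t : ℝ => u (x + t • (Pi.single i.succ (1 : ℝ) : V 4)) := by
        funext t
        rw [add_right_comm]
        exact hper _ (line_strip hx t i) j
      rw [e3] at e2
      exact e2.unique e1
    · intro x hx
      have e0 := hd (h2 0) x i.succ
      have e1 := hd (h2 1) x i.succ
      have e2 := hd (h2 2) x i.succ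
      have e3 := hd (h2 3) x i.succ
      have e4 := hd hu x i.succ
      have e5 := ((e0.add (e1.const_mul (((q (x 0))⁻¹) ^ 2))).add
        ((e2.add e3).const_mul (q (x 0) ^ 2))).add (e4.const_mul (lam * q (x 0)))
      have e6 : HasDerivAt (fun _ : ℝ => (0 : ℝ)) 0 0 := hasDerivAt_const _ _
      have e7 := e5.congr_of_eventuallyEq (f₁ := fun _ : ℝ => (0 : ℝ))
        (Filter.Eventually.of_forall fun t => by
          have h := heq _ (line_strip hx t i)
          rw [line0] at h
          exact h.symm)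
      have e8 := e7.unique e6
      rw [hcomm2, hcomm2, hcomm2, hcomm2] at e8
      exact e8
    · intro x hx
      have e0 := (hd ((hC u hu).1 0) x i.succ).const_mul (x 0)
      have e1 := (hd hu x i.succ).const_mul sig
      have e2 : (fun t : ℝ => x 0 * pd 0 u (x + t • (Pi.single i.succ (1 : ℝ) : V 4))) =
          fun t : ℝ => sig * u (x + t • (Pi.single i.succ (1 : ℝ) : V 4)) := by
        funext t
        have h := hbd (x + t • (Pi.single i.succ (1 : ℝ) : V 4)) (by rw [line0]; exact hx)
        rw [line0] at h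
        exact h
      rw [e2] at e0
      have e3 := e0.unique e1
      rw [hcomm1] at e3
      exact e3
  · intro u u' hu hu' h i x hx
    have e1 := hd hu x i.succ
    have e2 := hd hu' x i.succ
    have e3 : (fun t : ℝ => u (x + t • (Pi.single i.succ (1 : ℝ) : V 4))) =
        fun t : ℝ => u' (x + t • (Pi.single i.succ (1 : ℝ) : V 4)) := by
      funext t
      exact h _ (line_strip hx t i)
    rw [e3] at e1
    exact e1.unique e2

end Pool.Agent.W589.ST.OpD
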